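import Pool.Agent.Helper36.VC.St

/-!
Module WI of project VC: the value of the completeness is weakly inaccessible almost everywhere.
-/

set_option autoImplicit false

open Cardinal Ordinal Set Filter
open Pool.Agent.Helper65.GS Pool.Agent.Helper36.VC

universe u

namespace Pool.Agent.Helper48.VC

/-- a cofinal function on the cofinality -/
theorem cofun (r : Ordinal.{u}) : ∃ g : Ordinal.{u} → Ordinal.{u}, (∀ n < r.cof.ord, g n < r) ∧
    ∀ c < r, ∃ n < r.cof.ord, c ≤ g n := by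
  classical
  obtain ⟨s, hs, hs2⟩ := Order.exists_cof_eq r.ToType
  rw [cof_toType] at hs2
  have h1 : #(r.cof.ord.ToType) = #s := by rw [mk_toType, card_ord, hs2]
  obtain ⟨e⟩ := Cardinal.eq.1 h1
  refine ⟨fun n => if h : n < r.cof.ord then
    ((e (ToType.mk ⟨n, h⟩)).1.toOrd : Ordinal.{u}) else 0, ?_, ?_⟩
  · intro n hn
    change (if h : n < r.cof.ord then
      ((e (ToType.mk ⟨n, h⟩)).1.toOrd : Ordinal.{u}) else 0) < r
    rw [dif_pos hn]
    exact (e (ToType.mk ⟨n, hn⟩)).1.toOrd.2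
  · intro c hc
    obtain ⟨y, hy, hcy⟩ := hs (ToType.mk ⟨c, hc⟩)
    have hn : ((e.symm ⟨y, hy⟩).toOrd : Ordinal.{u}) < r.cof.ord := (e.symm ⟨y, hy⟩).toOrd.2
    refine ⟨(e.symm ⟨y, hy⟩).toOrd, hn, ?_⟩
    change c ≤ (if h : ((e.symm ⟨y, hy⟩).toOrd : Ordinal.{u}) < r.cof.ord then
      ((e (ToType.mk ⟨_, h⟩)).1.toOrd : Ordinal.{u}) else 0)
    rw [dif_pos hn]
    have h2 : ToType.mk ⟨((e.symm ⟨y, hy⟩).toOrd : Ordinal.{u}), hn⟩ = e.symm ⟨y, hy⟩ :=
      ToType.mk.apply_symm_apply _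
    rw [h2, e.apply_symm_apply]
    have h3 := ToType.mk.symm.monotone hcy
    rw [OrderIso.symm_apply_apply] at h3
    exact h3

/-- an upper bound of a short sequence -/
theorem supb {κ : Cardinal.{u}} (hr : κ.IsRegular) {b : Ordinal.{u}} (hb : b < κ.ord)
    (d : Ordinal.{u} → Ordinal.{u}) (hd : ∀ n < b, d n < κ.ord) :
    ∃ D < κ.ord, ∀ n < b, d n ≤ D := by
  have h1 : #b.ToType < κ.ord.cof := by
    rw [mk_toType, hr.cof_ord]
    exact Cardinal.lt_ord.1 hb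
  refine ⟨⨆ i : b.ToType, d i.toOrd, iSup_lt_of_lt_cof h1 fun i => hd _ i.toOrd.2, ?_⟩
  intro n hn
  have h2 := Ordinal.le_iSup (fun i : b.ToType => d i.toOrd) (ToType.mk ⟨n, hn⟩)
  simpa only [ToType.toOrd, OrderIso.symm_apply_apply] using h2

section

variable {X : Type u} {κ : Cardinal.{u}} {W : Filter X} {A : Set X}
    {t l : Ordinal.{u}} {f : Ordinal.{u} → X → Ordinal.{u}}

/-- a property holds almost everywhere if the counterexamples are not positive -/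
theorem ev_of_not_pos {p : X → Prop} (h : ¬ Pos W {x ∈ A | ¬ p x}) : ∀ᶠ x in W, x ∈ A → p x := by
  filter_upwards [not_pos.1 h] with x hx hxA
  by_contra hp
  exact hx ⟨hxA, hp⟩

/-- closure under a function -/
theorem wi_h (S : Sit κ W A t l f) (h : Ordinal.{u} → Ordinal.{u}) (hh : ∀ e < κ.ord, h e < κ.ord) :
    ∀ᶠ x in W, x ∈ A → ∀ e < f κ.ord x, h e < f κ.ord x := by
  classical
  apply ev_of_not_pos
  intro hpos
  have hex : ∀ x, ∃ e : Ordinal.{u}, (¬ ∀ e < f κ.ord x, h e < f κ.ord x) →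
      e < f κ.ord x ∧ f κ.ord x ≤ h e := by
    intro x
    by_cases hx : ∀ e < f κ.ord x, h e < f κ.ord x
    · exact ⟨0, fun h' => absurd hx h'⟩
    · push Not at hx
      obtain ⟨e, he⟩ := hx
      exact ⟨e, fun _ => he⟩
  choose e he using hex
  obtain ⟨a, ha, hp⟩ := S.loc (fun x hx => hx.1) hpos (fun x hx => (he x hx.2).1)
  have h1 := S.lt_k (hh a ha)
  obtain ⟨x, hx⟩ := (hp.ae (h1.mono fun x hx hxB => hx hxB.1.1)).nonempty
  have h2 := (he x hx.1.1.2).2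
  rw [hx.1.2] at h2
  exact absurd hx.2 (not_lt.2 h2)

/-- regularity -/
theorem wi_cof (hBND : StBND.{u}) (S : Sit κ W A t l f) :
    ∀ᶠ x in W, x ∈ A → (f κ.ord x).cof.ord = f κ.ord x := by
  classical
  apply ev_of_not_pos
  intro hpos
  obtain ⟨b, hb, hp⟩ := S.loc (g := fun x => (f κ.ord x).cof.ord) (fun x hx => hx.1) hpos
    (fun x hx => lt_of_le_of_ne (ord_cof_le _) hx.2)
  choose g hg1 hg2 using fun x => cofun (f κ.ord x)
  have hB' : {x ∈ {x ∈ A | ¬ (f κ.ord x).cof.ord = f κ.ord x} | (f κ.ord x).cof.ord = b} ⊆ A :=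
    fun x hx => hx.1.1
  have hd : ∀ n : Ordinal.{u}, ∃ d : Ordinal.{u}, n < b → d < κ.ord ∧ ∀ᶠ x in W,
      x ∈ {x ∈ {x ∈ A | ¬ (f κ.ord x).cof.ord = f κ.ord x} | (f κ.ord x).cof.ord = b} →
      g x n < d := by
    intro n
    by_cases hn : n < b
    · obtain ⟨d, hd1, hd2⟩ := hBND κ W A t l f S _ hB' (fun x => g x n) (fun x hx => by
        apply hg1
        rw [hx.2]
        exact hn)
      exact ⟨d, fun _ => ⟨hd1, hd2⟩⟩
    · exact ⟨0, fun h => absurd h hn⟩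
  choose d hd using hd
  obtain ⟨E, hE, hE2⟩ := supb S.reg hb d (fun n hn => (hd n hn).1)
  have h1 := S.all hb (p := fun n x =>
    x ∈ {x ∈ {x ∈ A | ¬ (f κ.ord x).cof.ord = f κ.ord x} | (f κ.ord x).cof.ord = b} →
      g x n < d n) (fun n hn => (hd n hn).2)
  have h2 := S.lt_k hE
  obtain ⟨x, hx⟩ := (hp.ae ((h1.and h2).mono fun x hx hxB =>
    show (∀ n < b, g x n < d n) ∧ E < f κ.ord x from
      ⟨fun n hn => hx.1 n hn hxB, hx.2 (hB' hxB)⟩)).nonempty
  obtain ⟨n, hn, hn2⟩ := hg2 x E hx.2.2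
  rw [hx.1.2] at hn
  have h3 := hx.2.1 n hn
  exact absurd (hn2.trans_lt h3) (not_lt.2 (hE2 n hn))

/-- limit of cardinals -/
theorem wi_lim (hBND : StBND.{u}) (S : Sit κ W A t l f) :
    ∀ᶠ x in W, x ∈ A → ∀ b < f κ.ord x, ∃ c, b < c ∧ c < f κ.ord x ∧ IsCard c := by
  classical
  apply ev_of_not_pos
  intro hpos
  have hpos2 := hpos.ae ((wi_cof hBND S).mono fun x hx hxB => hx hxB.1)
  have hex : ∀ x, ∃ e : Ordinal.{u}, (¬ ∀ b < f κ.ord x, ∃ c, b < c ∧ c < f κ.ord x ∧ IsCard c) →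
      e < f κ.ord x ∧ ∀ c, e < c → c < f κ.ord x → ¬ IsCard c := by
    intro x
    by_cases hx : ∀ b < f κ.ord x, ∃ c, b < c ∧ c < f κ.ord x ∧ IsCard c
    · exact ⟨0, fun h' => absurd hx h'⟩
    · push Not at hx
      obtain ⟨e, he⟩ := hx
      exact ⟨e, fun _ => he⟩
  choose e he using hex
  obtain ⟨b, hb, hp⟩ := S.loc (fun x hx => hx.1.1) hpos2 (fun x hx => (he x hx.1.2).1)
  obtain ⟨c, hc⟩ : ∃ c : Ordinal.{u}, c = (Order.succ b.card).ord := ⟨_, rfl⟩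
  have hbc : b < c := by
    rw [hc, Cardinal.lt_ord]
    exact Order.lt_succ _
  have hcc : IsCard c := by
    unfold IsCard
    rw [hc, card_ord]
  -- `f κ.ord x = c` on the set
  have key : ∀ x ∈ {x ∈ {x ∈ {x ∈ A | ¬ ∀ b < f κ.ord x, ∃ c, b < c ∧ c < f κ.ord x ∧ IsCard c} |
      (f κ.ord x).cof.ord = f κ.ord x} | e x = b}, f κ.ord x = c := by
    rintro x ⟨⟨⟨hxA, hx1⟩, hx2⟩, hx3⟩
    obtain ⟨h1, h2⟩ := he x hx1
    rw [hx3] at h1 h2
    have h3 : (f κ.ord x).card.ord = f κ.ord x := by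
      conv_lhs => rw [← hx2, card_ord]
      exact hx2
    have h4 : b.card < (f κ.ord x).card := by
      rw [← Cardinal.lt_ord, h3]
      exact h1
    have h5 : c ≤ f κ.ord x := by
      rw [hc, ← h3, Cardinal.ord_le_ord]
      exact Order.succ_le_of_lt h4
    rcases h5.eq_or_lt with h6 | h6
    · exact h6.symm
    · exact absurd hcc (h2 c hbc h6)
  have hk := S.k_lt
  obtain ⟨y, hy⟩ := (hp.ae (hk.mono fun x hx hxB => hx hxB.1.1.1)).nonempty
  have hck : c < κ.ord := by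
    have := hy.2
    rwa [key y hy.1] at this
  obtain ⟨x, hx⟩ := (hp.ae ((S.lt_k hck).mono fun x hx hxB => hx hxB.1.1.1)).nonempty
  have := hx.2
  rw [key x hx.1] at this
  exact lt_irrefl _ this

end

theorem pWI (hBND : StBND.{u}) : StWI.{u} := by
  intro X κ W A t l f S h hh
  have hw : ω < κ.ord := by
    rw [← Cardinal.ord_aleph0]
    exact Cardinal.ord_lt_ord.2 S.unc
  filter_upwards [S.k_lt, S.lt_k hw, wi_cof hBND S, wi_lim hBND S, wi_h S h hh] with x h1 h2 h3 h4 h5 hx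
  exact ⟨h1 hx, ⟨h2 hx, h3 hx, h4 hx⟩, h5 hx⟩

end Pool.Agent.Helper48.VC
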